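import Pool.Agent.helper45.SGC.Spec

/-!
# Project SGC (MP_069684_lc), row BAD: few bad patterns for a subspace of small index
-/

set_option autoImplicit false

namespace Pool.Agent.SGC

open Finset Pool.Agent.helper38.Neg Pool.Agent.helper55.NT

/-- the indicator of a pattern -/
def BAD_c {h : ℕ} (P : Fin 3 → Finset (Fin h)) (i : Fin 3 × Fin h) : ZMod 2 :=
  if i.2 ∈ P i.1 then 1 else 0

theorem BAD_sum {t h : ℕ} (z : Fin 3 × Fin h → Fin t) (P : Fin 3 → Finset (Fin h))
    (γ : Fin t → ZMod 2) :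
    ∑ i, BAD_c P i * γ (z i) = ∑ j, ∑ p ∈ P j, γ (z (j, p)) := by
  rw [Fintype.sum_prod_type]
  refine Finset.sum_congr rfl fun j _ => ?_
  rw [← Finset.sum_filter_add_sum_filter_not univ (fun p => p ∈ P j)]
  have h1 : ∑ p ∈ univ.filter (fun p => p ∈ P j), BAD_c P (j, p) * γ (z (j, p)) =
      ∑ p ∈ P j, γ (z (j, p)) := by
    have e : univ.filter (fun p => p ∈ P j) = P j := by ext p; simp
    rw [e]
    refine Finset.sum_congr rfl fun p hp => ?_
    unfold BAD_c
    rw [if_pos hp, one_mul]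
  have h2 : ∑ p ∈ univ.filter (fun p => ¬ p ∈ P j), BAD_c P (j, p) * γ (z (j, p)) = 0 := by
    refine Finset.sum_eq_zero fun p hp => ?_
    unfold BAD_c
    rw [if_neg (Finset.mem_filter.1 hp).2, zero_mul]
  rw [h1, h2, add_zero]

/-- the functional of a pattern on `V` -/
def BAD_f {t h : ℕ} (V : Submodule (ZMod 2) (Sg t)) (z : Fin 3 × Fin h → Fin t)
    (P : Fin 3 → Finset (Fin h)) : Module.Dual (ZMod 2) V where
  toFun γ := ∑ i, BAD_c P i * (γ : Fin t → ZMod 2) (z i)
  map_add' a b := by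
    rw [← Finset.sum_add_distrib]
    refine Finset.sum_congr rfl fun i _ => ?_
    change BAD_c P i * ((a : Fin t → ZMod 2) (z i) + (b : Fin t → ZMod 2) (z i)) = _
    ring
  map_smul' r a := by
    rw [smul_eq_mul, RingHom.id_apply, Finset.mul_sum]
    refine Finset.sum_congr rfl fun i _ => ?_
    change BAD_c P i * (r * (a : Fin t → ZMod 2) (z i)) = _
    ring

theorem BAD : BAD_stmt := by
  classical
  intro t h s V H z hz hHV hcard
  have : Fact (Nat.Prime 2) := ⟨Nat.prime_two⟩
  have : Finite (Sg t) := inferInstanceAs (Finite (Fin t → ZMod 2))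
  set L : Finset (Fin 3 → Finset (Fin h)) :=
    univ.filter fun P => ∀ γ ∈ H, ∑ j, ∑ p ∈ P j, γ (z (j, p)) = 0 with hL
  refine ⟨L, ?_, fun P hP => by rw [hL, Finset.mem_filter]; exact ⟨Finset.mem_univ _, hP⟩⟩
  set H' : Submodule (ZMod 2) V := H.submoduleOf V with hH'
  have hfin : Finite (Module.Dual (ZMod 2) V) := Module.finite_of_finite (ZMod 2)
  have e1 : Nat.card H' = Nat.card H := Nat.card_congr (Submodule.submoduleOfEquivOfLe hHV).toEquiv
  have hq : Nat.card (ZMod 2) = 2 := by simp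
  have c1 : Nat.card V = 2 ^ Module.finrank (ZMod 2) V := by
    rw [Module.natCard_eq_pow_finrank (K := ZMod 2), hq]
  have c2 : Nat.card H' = 2 ^ Module.finrank (ZMod 2) H' := by
    rw [Module.natCard_eq_pow_finrank (K := ZMod 2), hq]
  have c3 : Nat.card H'.dualAnnihilator = 2 ^ Module.finrank (ZMod 2) H'.dualAnnihilator := by
    rw [Module.natCard_eq_pow_finrank (K := ZMod 2), hq]
  have c4 := Subspace.finrank_add_finrank_dualAnnihilator_eq H'
  have c5 : Nat.card H'.dualAnnihilator ≤ s := by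
    have h1 : Nat.card H' * Nat.card H'.dualAnnihilator ≤ Nat.card H' * s := by
      rw [c2, c3, ← pow_add, c4, ← c1, ← c2, e1, mul_comm]
      exact hcard
    have h2 : 0 < Nat.card H' := by rw [c2]; positivity
    exact Nat.le_of_mul_le_mul_left h1 h2
  have hmem : ∀ P : L, BAD_f V z P.1 ∈ H'.dualAnnihilator := by
    intro P
    rw [Submodule.mem_dualAnnihilator]
    intro γ hγ
    change ∑ i, BAD_c P.1 i * ((γ : Sg t) : Fin t → ZMod 2) (z i) = 0
    rw [BAD_sum z P.1]
    exact (Finset.mem_filter.1 P.2).2 _ hγ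
  have hinj : Function.Injective (fun P : L => (⟨BAD_f V z P.1, hmem P⟩ : H'.dualAnnihilator)) := by
    intro P Q hPQ
    have hPQ' : BAD_f V z P.1 = BAD_f V z Q.1 := congrArg Subtype.val hPQ
    apply Subtype.ext
    have hc : (fun i => BAD_c P.1 i - BAD_c Q.1 i) = 0 := by
      apply hz
      intro γ hγ
      have := congrArg (fun f => f ⟨γ, hγ⟩) hPQ'
      have h3 : ∑ i, BAD_c P.1 i * γ (z i) = ∑ i, BAD_c Q.1 i * γ (z i) := this
      have : ∀ i, (BAD_c P.1 i - BAD_c Q.1 i) * γ (z i) =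
          BAD_c P.1 i * γ (z i) - BAD_c Q.1 i * γ (z i) := fun i => by ring
      rw [Finset.sum_congr rfl fun i _ => this i, Finset.sum_sub_distrib, h3, sub_self]
    funext j
    ext p
    have := congrFun hc (j, p)
    have h4 : BAD_c P.1 (j, p) = BAD_c Q.1 (j, p) := sub_eq_zero.1 this
    unfold BAD_c at h4
    by_cases hp : p ∈ P.1 j <;> by_cases hq' : p ∈ Q.1 j <;> simp_all
  calc L.card = Nat.card L := by rw [Nat.card_eq_fintype_card, Fintype.card_coe]
    _ ≤ Nat.card H'.dualAnnihilator := Nat.card_le_card_of_injective _ hinj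
    _ ≤ s := c5

end Pool.Agent.SGC
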