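import Pool.Agent.helper45.SGC.Spec

/-!
# Project SGC (MP_069684_lc), row BIC: two facts on binomial coefficients
-/

set_option autoImplicit false

namespace Pool.Agent.SGC

open Finset Pool.Agent.helper38.Neg Pool.Agent.helper55.NT

theorem BIC_inc (N c : ℕ) : ∀ d : ℕ, c + d ≤ N / 2 → N.choose c ≤ N.choose (c + d)
  | 0, _ => le_refl _
  | d + 1, h => (BIC_inc N c d (by omega)).trans (Nat.choose_le_succ_of_lt_half_left (by omega))

theorem BIC_desc (k : ℕ) : ∀ j : ℕ, 5 ^ j * k.descFactorial j ≤ (5 * k).descFactorial j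
  | 0 => by simp
  | j + 1 => by
    rw [Nat.descFactorial_succ, Nat.descFactorial_succ, pow_succ]
    have h1 := BIC_desc k j
    have h2 : 5 * (k - j) ≤ 5 * k - j := by omega
    calc 5 ^ j * 5 * ((k - j) * k.descFactorial j)
        = (5 * (k - j)) * (5 ^ j * k.descFactorial j) := by ring
      _ ≤ (5 * k - j) * (5 * k).descFactorial j := Nat.mul_le_mul h2 h1

theorem BIC : BIC_stmt := by
  refine ⟨?_, ?_⟩
  · intro N c τ h1 h2
    by_cases h : τ ≤ N / 2
    · obtain ⟨d, rfl⟩ := Nat.exists_eq_add_of_le h1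
      exact BIC_inc N c d h
    · rw [← Nat.choose_symm (show τ ≤ N by omega)]
      obtain ⟨d, hd⟩ := Nat.exists_eq_add_of_le (show c ≤ N - τ by omega)
      rw [hd]
      exact BIC_inc N c d (by omega)
  · intro m
    have h1 := BIC_desc (2 * m) (2 * m)
    rw [Nat.descFactorial_self, Nat.descFactorial_eq_factorial_mul_choose, mul_comm] at h1
    have h2 : 0 < (2 * m).factorial := Nat.factorial_pos _
    have h3 := Nat.le_of_mul_le_mul_left h1 h2
    rw [show 2 * (5 * m) = 5 * (2 * m) by ring]
    exact h3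

end Pool.Agent.SGC
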